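import Pool.Agent.Helper61.FN.GoalsC
import Pool.Agent.Helper61.FN.Tools

/-!
# Project FN (MP_06d934_gt), packet FN-C0J
-/

set_option autoImplicit false

namespace Pool.Agent.Helper49.FN

open Pool.Agent.Helper61.FN

theorem goalC0J : G_C0J := by
  intro F k _ _ _ _ _ p q mu ep lam v M ξ h hp h3 h2 h4 h0
  obtain ⟨p1, q1, mu0, ep2, ph0, ch0⟩ := h.par
  have pp : 0 < p := lt_of_lt_of_le one_pos p1
  have qq : 0 < q := lt_of_lt_of_le one_pos q1
  have K0 : 0 < 2 * p + 2 * q + mu + 2 * ep := by linarith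
  have ha := hp 5
  have hb := hp 1
  have e1 : M + gr (mC 5) v = 0 := by
    refine h.nrm.dm0 ![2, 0, 2, 2, 1, 1] ?_ 5 ?_ fun j hji hj ↦ ?_
    · have h1 := mul_pos pp qq
      have h2 := mul_pos pp ph0
      have h3 := mul_pos qq ch0
      have h4 := mul_pos pp mu0
      have h5 := mul_pos qq mu0
      have h6 : (0 : F) < ∑ e, dC p q mu ep e * (![2, 0, 2, 2, 1, 1] : Fin 6 → F) e := by
        simp [Fin.sum_univ_succ, dC]
        nlinarith
      exact h6.ne'
    · rw [pr6]
      have h1 : (0 : F) < 2 * q * mu * (2 * p + 2 * q + mu + 2 * ep) := by positivity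
      simp [mC, cC]
      exact ⟨⟨qq.ne', mu0.ne'⟩, K0.ne'⟩
    · rw [gr6, gr6]
      rw [pr6] at hj
      fin_cases j <;> simp [mC] at hj hji ⊢ <;> first | omega | (exfalso; exact hj.2 (by norm_num))
  have e2 : M + gr (mC 1) v = 0 := by
    refine h.nrm.dm0 ![1, 1, 2, 0, 1, 0] ?_ 1 ?_ fun j hji hj ↦ ?_
    · have h1 := mul_pos pp qq
      have h2 := mul_pos pp ph0
      have h3 := mul_pos qq ch0
      have h4 := mul_pos pp mu0
      have h5 := mul_pos qq mu0
      have h6 : (0 : F) < ∑ e, dC p q mu ep e * (![1, 1, 2, 0, 1, 0] : Fin 6 → F) e := by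
        simp [Fin.sum_univ_succ, dC]
        nlinarith
      exact h6.ne'
    · rw [pr6]
      simp [mC, cC]
      exact ⟨⟨pp.ne', qq.ne'⟩, K0.ne'⟩
    · rw [gr6, gr6]
      rw [pr6] at hj
      fin_cases j <;> simp [mC] at hj hji ⊢ <;> first | omega | (exfalso; exact hj.2 (by norm_num))
  rw [gr6] at e1 e2
  simp [mC] at e1 e2
  have hs := h.sm
  have f5 : v 5 = M := by omega
  have f1 : v 1 = M := by omega
  have f4 : v 4 = 2 * M := by omega
  have f0 : v 0 = 3 * M := by omega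
  have f3 : v 3 = 2 * M := by omega
  have f2 : v 2 = 4 * M := by omega
  have hM0 : (0 : F) < M := by exact_mod_cast h.nrm.M_pos
  rw [f0, f1, f2, f3, f4, f5] at hs
  push_cast at hs
  have g1 := mul_pos (mul_pos pp qq) hM0
  have g2 := mul_pos (mul_pos pp ph0) hM0
  have g3 := mul_pos (mul_pos qq ch0) hM0
  have g4 := mul_pos (mul_pos pp mu0) hM0
  nlinarith

end Pool.Agent.Helper49.FN
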